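import Pool.Agent.H14.TA.Stmts

/-!
# Project ART, module GOODF: the wall families satisfy the hypotheses
-/

namespace TA

theorem goodf_of (hDEL : S_DEL) (hD1 : S_D1) : S_GOODF := by
  intro κ hκ F
  obtain ⟨-, h2, h3, -⟩ := hDEL κ (by omega)
  refine ⟨?_, true, ?_⟩
  · intro i n hn
    unfold BF at hn
    split_ifs at hn with h
    · exact h3 n hn
    · obtain ⟨m, hm⟩ := Subgroup.mem_zpowers_iff.1 hn
      exact (h2 m n hm).2
  · intro β hβ hβ1 p q l hl
    unfold BF at hβ
    rw [if_neg (by simp)] at hβ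
    obtain ⟨m, rfl⟩ := Subgroup.mem_zpowers_iff.1 hβ
    have hm : m ≠ 0 := by
      rintro rfl
      exact hβ1 (zpow_zero _)
    have := hD1 κ m p q hm l hl
    omega

end TA
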