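import Pool.Agent.H14.TA.Stmts

/-!
# Project ART, module SIDEG: side functions exist on `G κ`
-/

namespace TA

open Classical in
/-- The elements of `Aff Γ` that define the side function. -/
noncomputable def affGen {I Γ : Type*} [Group Γ] (γ : I → Γ) (x : I) (B : Subgroup Γ) (y : I) : Aff Γ :=
  ⟨fun t => if y = x ∧ t ∈ B then 1 else 0, γ y⟩

theorem aff_pow_g {Γ : Type*} [Group Γ] (u : Aff Γ) (n : ℕ) : (u ^ n).g = u.g ^ n := by
  have := map_pow (Aff.toG (Γ := Γ)) u n
  simpa using this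

theorem aff_pow_f {Γ : Type*} [Group Γ] (u : Aff Γ) (n : ℕ) (t : Γ) :
    (u ^ n).f t = ∑ j ∈ Finset.range n, u.f ((u.g ^ j)⁻¹ * t) := by
  induction n with
  | zero => simp
  | succ n ih => rw [pow_succ, Aff.mul_f, ih, Finset.sum_range_succ, aff_pow_g]

open Classical in
/-- The relation of two generators, under the parity condition. -/
theorem aff_rel {I Γ : Type*} [Group Γ] (γ : I → Γ) (x v : I) (hv : v ≠ x) (B : Subgroup Γ) (n : ℕ)
    (hg : (γ x * γ v) ^ n = (γ v * γ x) ^ n)
    (hpar : ∀ t : Γ, Even (((Finset.range n).filter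
      (fun j => t⁻¹ * (γ x * γ v) ^ j ∈ B)).card +
      ((Finset.range n).filter (fun j => t⁻¹ * (γ v * (γ x * γ v) ^ j) ∈ B)).card)) :
    (affGen γ x B x * affGen γ x B v) ^ n = (affGen γ x B v * affGen γ x B x) ^ n := by
  ext t
  · rw [aff_pow_f, aff_pow_f]
    have e1 : ∀ j : ℕ, (affGen γ x B x * affGen γ x B v).f
        (((affGen γ x B x * affGen γ x B v).g ^ j)⁻¹ * t) =
        if t⁻¹ * (γ x * γ v) ^ j ∈ B then (1 : ZMod 2) else 0 := by
      intro j
      have h1 : ((γ x * γ v) ^ j)⁻¹ * t ∈ B ↔ t⁻¹ * (γ x * γ v) ^ j ∈ B := by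
        rw [← B.inv_mem_iff]; simp
      simp only [affGen, Aff.mul_f, Aff.mul_g, hv, false_and, if_false, add_zero, true_and, h1]
    have e2 : ∀ j : ℕ, (affGen γ x B v * affGen γ x B x).f
        (((affGen γ x B v * affGen γ x B x).g ^ j)⁻¹ * t) =
        if t⁻¹ * (γ v * (γ x * γ v) ^ j) ∈ B then (1 : ZMod 2) else 0 := by
      intro j
      have h0 : (γ v * γ x) ^ j * γ v = γ v * (γ x * γ v) ^ j := by
        induction j with
        | zero => simp
        | succ j ih => rw [pow_succ', mul_assoc, ih, pow_succ']; simp only [mul_assoc]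
      have h1 : (γ v)⁻¹ * (((γ v * γ x) ^ j)⁻¹ * t) ∈ B ↔ t⁻¹ * (γ v * (γ x * γ v) ^ j) ∈ B := by
        rw [← B.inv_mem_iff, ← h0]
        simp [mul_assoc]
      simp only [affGen, Aff.mul_f, Aff.mul_g, hv, false_and, if_false, zero_add, true_and, h1]
    rw [Finset.sum_congr rfl fun j _ => e1 j, Finset.sum_congr rfl fun j _ => e2 j]
    rw [Finset.sum_boole, Finset.sum_boole]
    have h2 : ((((Finset.range n).filter (fun j => t⁻¹ * (γ x * γ v) ^ j ∈ B)).card +
      ((Finset.range n).filter (fun j => t⁻¹ * (γ v * (γ x * γ v) ^ j) ∈ B)).card : ℕ) : ZMod 2) = 0 :=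
      (ZMod.natCast_eq_zero_iff_even).2 (hpar t)
    push_cast at h2
    rw [← CharTwo.add_eq_zero]
    exact h2
  · rw [aff_pow_g, aff_pow_g]
    exact hg

theorem aff_rel_other {I Γ : Type*} [Group Γ] (γ : I → Γ) (x u v : I) (hu : u ≠ x) (hv : v ≠ x)
    (B : Subgroup Γ) (n : ℕ) (hg : (γ u * γ v) ^ n = (γ v * γ u) ^ n) :
    (affGen γ x B u * affGen γ x B v) ^ n = (affGen γ x B v * affGen γ x B u) ^ n := by
  have hz : ∀ a b : I, a ≠ x → b ≠ x → ∀ t, (affGen γ x B a * affGen γ x B b).f t = 0 := by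
    intro a b ha hb t
    simp [affGen, ha, hb]
  ext t
  · rw [aff_pow_f, aff_pow_f, Finset.sum_eq_zero fun j _ => hz u v hu hv _,
      Finset.sum_eq_zero fun j _ => hz v u hv hu _]
  · rw [aff_pow_g, aff_pow_g]
    exact hg

theorem sideg_of (hQA : S_QA) (hGOODF : S_GOODF) (hPARV : S_PARV) (hPARK : S_PARK) : S_SIDEG := by
  classical
  intro κ hκ F
  obtain ⟨x, b⟩ := F
  obtain ⟨-, hQ⟩ := hQA κ hκ x (BF κ (x, b)) (hGOODF κ hκ (x, b))
  set Q : Subgroup (G κ) := QF κ (x, b) with hQdef
  have hQ' : ∀ (i : Bool) (α : D κ), iota κ x (yy x i) α ∈ Q ↔ α ∈ BF κ (x, b) i := hQ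
  have hParD : ∀ i, ParD κ (BF κ (x, b) i) := by
    intro i
    unfold BF
    split_ifs
    · exact hPARK κ (by omega)
    · exact hPARV κ (by omega)
  -- the parity condition
  have hpar : ∀ (i : Bool) (t : G κ), Even (((Finset.range (2 * κ)).filter
      (fun j => t⁻¹ * (gen κ x * gen κ (yy x i)) ^ j ∈ Q)).card +
      ((Finset.range (2 * κ)).filter (fun j => t⁻¹ * (gen κ (yy x i) *
        (gen κ x * gen κ (yy x i)) ^ j) ∈ Q)).card) := by
    intro i t
    have e1 : ∀ j : ℕ, (gen κ x * gen κ (yy x i)) ^ j =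
        iota κ x (yy x i) ((dgen κ false * dgen κ true) ^ j) := by
      intro j; simp
    have e2 : ∀ j : ℕ, gen κ (yy x i) * (gen κ x * gen κ (yy x i)) ^ j =
        iota κ x (yy x i) (dgen κ true * (dgen κ false * dgen κ true) ^ j) := by
      intro j; simp
    simp only [e2]
    simp only [e1]
    by_cases hex : ∃ g' : D κ, t⁻¹ * iota κ x (yy x i) g' ∈ Q
    · obtain ⟨g', hg'⟩ := hex
      have key : ∀ h : D κ, t⁻¹ * iota κ x (yy x i) h ∈ Q ↔ g'⁻¹ * h ∈ BF κ (x, b) i := by
        intro h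
        rw [← hQ' i, map_mul, map_inv]
        constructor
        · intro h1
          have := Q.mul_mem (Q.inv_mem hg') h1
          simpa [mul_assoc] using this
        · intro h1
          have := Q.mul_mem hg' h1
          simpa [mul_assoc] using this
      simp only [key]
      exact hParD i g'
    · push Not at hex
      rw [Finset.filter_false_of_mem fun j _ => hex _, Finset.filter_false_of_mem fun j _ => hex _]
      simp
  -- the homomorphism
  have hrel : ∀ u v : Fin 3, u ≠ v → (affGen (gen κ) x Q u * affGen (gen κ) x Q v) ^ (2 * κ) =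
      (affGen (gen κ) x Q v * affGen (gen κ) x Q u) ^ (2 * κ) := by
    have hx : ∀ v, v ≠ x → (affGen (gen κ) x Q x * affGen (gen κ) x Q v) ^ (2 * κ) =
        (affGen (gen κ) x Q v * affGen (gen κ) x Q x) ^ (2 * κ) := by
      intro v hv
      obtain ⟨i, rfl⟩ : ∃ i, v = yy x i := by
        rcases letter_cases x v with h | h | h
        · exact absurd h hv
        · exact ⟨_, h⟩
        · exact ⟨_, h⟩
      exact aff_rel (gen κ) x _ hv Q (2 * κ) (gen_rel κ _ _) (hpar i)
    intro u v huv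
    by_cases hu : u = x
    · subst hu
      exact hx v huv.symm
    · by_cases hv : v = x
      · subst hv
        exact (hx u huv).symm
      · exact aff_rel_other (gen κ) x u v hu hv Q (2 * κ) (gen_rel κ _ _)
  let Φ : G κ →* Aff (G κ) := lift κ (affGen (gen κ) x Q) hrel
  have hΦ : ∀ g, (Φ g).g = g := by
    intro g
    have : (Aff.toG).comp Φ = MonoidHom.id _ := by
      apply G_hom_ext
      intro y
      simp [Φ, affGen]
    have := DFunLike.congr_fun this g
    simpa using this
  refine ⟨fun t g => (Φ g).f t, ?_, ?_, ?_, ?_⟩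
  · intro t g h
    change (Φ (g * h)).f t = _
    rw [map_mul, Aff.mul_f, hΦ]
  · intro t ht
    change (Φ (gen κ x)).f t = 1
    simp only [Φ, lift_gen, affGen]
    rw [if_pos ⟨trivial, ht⟩]
  · intro t ht
    change (Φ (gen κ x)).f t = 0
    simp only [Φ, lift_gen, affGen]
    rw [if_neg fun h => ht h.2]
  · intro t y hy
    change (Φ (gen κ y)).f t = 0
    simp only [Φ, lift_gen, affGen]
    rw [if_neg fun h => hy h.1]

end TA
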